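import Mathlib

set_option autoImplicit false

open Polynomial

namespace Pool.Agent.Lib.MP_424c76_an

/-- `Q P n m` is the `m`-th derivative of `P ^ n`. -/
noncomputable def Q (P : ℂ[X]) (n m : ℕ) : ℂ[X] := derivative^[m] (P ^ n)

/-- The set `Z` of all complex zeros of all `Q P n m` with `n ≥ 1` and `0 ≤ m ≤ n * deg P`. -/
def zeroSet (P : ℂ[X]) : Set ℂ :=
  {z | ∃ n m : ℕ, 1 ≤ n ∧ m ≤ n * P.natDegree ∧ (Q P n m).IsRoot z}

/-- The shadow of `P`: the closure of `Z`. -/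
def shadow (P : ℂ[X]) : Set ℂ := closure (zeroSet P)

end Pool.Agent.Lib.MP_424c76_an
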