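import Pool.Agent.Lib.MP_424c76_an.ShBasic

set_option autoImplicit false

open Polynomial

namespace Pool.Agent.Lib.MP_424c76_an

theorem shLowA_first {P : ℂ[X]} (hP : 1 ≤ P.natDegree) (δ R : ℝ) (hδ : 0 < δ) :
    ∃ c : ℝ, 0 < c ∧ ∀ z : ℂ, ‖z‖ ≤ R → (∀ w ∈ zeroSet P, δ ≤ ‖z - w‖) →
      c * ‖P.eval z‖ ≤ ‖(derivative P).eval z‖ := by
  set K : Set ℂ := Metric.closedBall 0 R ∩ ⋂ w ∈ zeroSet P, {z | δ ≤ ‖z - w‖} with hK
  have hKc : IsCompact K := (isCompact_closedBall 0 R).inter_right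
    (isClosed_biInter fun w _ => isClosed_le continuous_const (by fun_prop))
  have hne : ∀ z ∈ K, ‖(derivative P).eval z‖ ≠ 0 := by
    intro z hz h0
    have h1 : z ∈ zeroSet P := ⟨1, 1, le_rfl, by omega, by simpa [Q] using h0⟩
    have h2 := Set.mem_iInter₂.1 hz.2 z h1
    simp only [Set.mem_ofPred_eq, sub_self, norm_zero] at h2
    linarith
  have hc : ContinuousOn (fun z => ‖P.eval z‖ / ‖(derivative P).eval z‖) K :=
    ContinuousOn.div (by fun_prop) (by fun_prop) hne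
  obtain ⟨C, hC⟩ := hKc.bddAbove_image hc
  refine ⟨(max C 1)⁻¹, by positivity, fun z h1 h2 => ?_⟩
  have hz : z ∈ K := ⟨mem_closedBall_zero_iff.2 h1, Set.mem_iInter₂.2 h2⟩
  have h3 : ‖P.eval z‖ / ‖(derivative P).eval z‖ ≤ max C 1 :=
    (hC ⟨z, hz, rfl⟩).trans (le_max_left _ _)
  rw [div_le_iff₀ (lt_of_le_of_ne (norm_nonneg _) (hne z hz).symm)] at h3
  rw [inv_mul_le_iff₀ (by positivity)]
  exact h3

/-- Lower bound for the logarithmic derivatives of low order. -/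
theorem lowA {P : ℂ[X]} (hP : 1 ≤ P.natDegree) (δ R : ℝ) (hδ : 0 < δ) :
    ∃ ε c : ℝ, 0 < ε ∧ 0 < c ∧ ∀ n : ℕ, 1 ≤ n → ∀ z : ℂ, ‖z‖ ≤ R →
      (∀ w ∈ zeroSet P, δ ≤ ‖z - w‖) → ∀ m : ℕ, m < n * P.natDegree → (m : ℝ) ≤ ε * n →
      c * n * ‖(Q P n m).eval z‖ ≤ ‖(Q P n (m + 1)).eval z‖ := by
  obtain ⟨c0, hc0, hfirst⟩ := shLowA_first hP δ R hδ
  have hd : (0 : ℝ) < P.natDegree := by exact_mod_cast hP
  set C1 : ℝ := 2 * P.natDegree / (c0 * δ ^ 2) with hC1
  have hC10 : 0 < C1 := by positivity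
  refine ⟨c0 / (2 * C1), c0 / 2, by positivity, by positivity, fun n hn z hz hw => ?_⟩
  have hn0 : (0 : ℝ) < n := by exact_mod_cast hn
  have hroot : ∀ j, j ≤ n * P.natDegree → ∀ w, (Q P n j).IsRoot w → δ ≤ ‖z - w‖ :=
    fun j hj w h => hw w ⟨n, j, hn, hj, h⟩
  have hpos : ∀ j, j ≤ n * P.natDegree → 0 < ‖(Q P n j).eval z‖ := by
    intro j hj
    refine norm_pos_iff.2 fun h0 => ?_
    have := hroot j hj z h0
    simp only [sub_self, norm_zero] at this
    linarith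
  have key : ∀ j : ℕ, j < n * P.natDegree → j * C1 ≤ c0 * n / 2 →
      (c0 * n - j * C1) * ‖(Q P n j).eval z‖ ≤ ‖(Q P n (j + 1)).eval z‖ := by
    intro j
    induction j with
    | zero =>
      intro _ _
      obtain ⟨k, rfl⟩ : ∃ k, n = k + 1 := ⟨n - 1, by omega⟩
      have h1 := mul_le_mul_of_nonneg_left (hfirst z hz hw)
        (show 0 ≤ ((k : ℝ) + 1) * ‖P.eval z‖ ^ k by positivity)
      have e1 : ‖(Q P (k + 1) 0).eval z‖ = ‖P.eval z‖ ^ (k + 1) := by simp [Q]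
      have e2 : ‖(Q P (k + 1) (0 + 1)).eval z‖ =
          ((k : ℝ) + 1) * ‖P.eval z‖ ^ k * ‖(derivative P).eval z‖ := by
        have e3 : ‖(k : ℂ) + 1‖ = (k : ℝ) + 1 := by exact_mod_cast Complex.norm_natCast (k + 1)
        simp [Q, derivative_pow_succ, e3]
      rw [e1, e2]
      refine le_trans (le_of_eq ?_) h1
      push_cast; ring
    | succ j ih =>
      intro hj hj2
      push_cast at hj2 ⊢
      have h1 := ih (by omega) (by nlinarith)
      have h2 := logd2_le (Q P n j) hδ (hroot j (by omega))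
      rw [← Q_succ, ← Q_succ, eval_sub, eval_mul, eval_pow] at h2
      have h3 := hpos j (by omega)
      have h4 : ((Q P n j).natDegree : ℝ) ≤ n * P.natDegree := by
        rw [Q_deg]; exact_mod_cast Nat.sub_le _ _
      have h5 := norm_sub_norm_le ((Q P n (j + 1)).eval z ^ 2)
        ((Q P n (j + 1 + 1)).eval z * (Q P n j).eval z)
      rw [norm_sub_rev, norm_pow, norm_mul] at h5
      set a := ‖(Q P n j).eval z‖
      set b := ‖(Q P n (j + 1)).eval z‖ with hb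
      set e := ‖(Q P n (j + 1 + 1)).eval z‖
      have hb0 : 0 ≤ b := norm_nonneg _
      have h6 : ((Q P n j).natDegree : ℝ) / δ ^ 2 * a ^ 2 ≤ C1 * (c0 * n / 2 * a) * a := by
        have e1 : C1 * (c0 * n / 2 * a) * a = n * P.natDegree / δ ^ 2 * a ^ 2 := by
          rw [hC1]; field_simp
        rw [e1]
        gcongr
      have h7 : c0 * n / 2 * a ≤ b :=
        le_trans (mul_le_mul_of_nonneg_right (by nlinarith) h3.le) h1
      have h8 : C1 * (c0 * n / 2 * a) * a ≤ C1 * b * a := by gcongr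
      have h9 := mul_le_mul_of_nonneg_right h1 hb0
      refine le_of_mul_le_mul_right ?_ h3
      nlinarith
  intro m hm hm2
  have h1 : m * C1 ≤ c0 * n / 2 := by
    have h2 := mul_le_mul_of_nonneg_right hm2 hC10.le
    have e : c0 / (2 * C1) * n * C1 = c0 * n / 2 := by field_simp
    linarith
  refine le_trans (mul_le_mul_of_nonneg_right ?_ (norm_nonneg _)) (key m hm h1)
  linarith

end Pool.Agent.Lib.MP_424c76_an
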