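import Pool.Agent.Lib.MP_424c76_an.ShBasic

set_option autoImplicit false

open Polynomial

namespace Pool.Agent.Lib.MP_424c76_an

open Finset in
theorem shlowb_rec (P : ℂ[X]) {e : ℕ} (he : P.natDegree = e + 1) {n m : ℕ} (hn : 1 ≤ n)
    (hm : 1 ≤ m) (z : ℂ) :
    ((m + e).choose e : ℂ) * (n * (e + 1) - m) * (Q P n m).eval z *
      (derivative^[e + 1] P).eval z = (e + 1) *
      (∑ k ∈ range (e + 1), ((m + e).choose k : ℂ) * (Q P n (m + 1 + (e - k))).eval z *
        (derivative^[k] P).eval z -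
      n * ∑ k ∈ range e, ((m + e).choose k : ℂ) * (Q P n (m + 1 + (e - 1 - k))).eval z *
        (derivative^[k + 1] P).eval z) := by
  have h0 : derivative (P ^ n) * P = C (n : ℂ) * (P ^ n * derivative P) := by
    obtain ⟨n, rfl⟩ := Nat.exists_eq_add_of_le' hn
    rw [derivative_pow_succ, pow_succ]
    simp only [map_add, map_natCast, map_one, Nat.cast_add, Nat.cast_one]
    ring
  have hz : ∀ k, e + 1 < k → derivative^[k] P = 0 := fun k hk =>
    iterate_derivative_eq_zero (he ▸ hk)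
  have h1 := congrArg (fun A => (derivative^[m + e] A).eval z) h0
  simp only [iterate_derivative_C_mul] at h1
  simp only [iterate_derivative_mul, eval_mul, eval_C, eval_finsetSum,
    nsmul_eq_mul, eval_natCast, ← Function.iterate_succ_apply] at h1
  rw [← sum_subset (range_mono (by omega : e + 1 + 1 ≤ (m + e).succ)) fun k _ hk => by
      rw [hz k (by simp at hk; omega), eval_zero, mul_zero, mul_zero],
    ← sum_subset (range_mono (by omega : e + 1 ≤ (m + e).succ)) fun k _ hk => by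
      rw [hz k.succ (by simp at hk; omega), eval_zero, mul_zero, mul_zero],
    sum_range_succ _ (e + 1), sum_range_succ (n := e) fun k => ((m + e).choose k : ℂ) *
      ((derivative^[m + e - k] (P ^ n)).eval z * (derivative^[k.succ] P).eval z),
    show (m + e - (e + 1)).succ = m by omega, Nat.add_sub_cancel] at h1
  have h2 : ((m + e).choose (e + 1) : ℂ) * (e + 1) = (m + e).choose e * m := by
    have := Nat.choose_succ_right_eq (m + e) e
    rw [Nat.add_sub_cancel] at this
    exact_mod_cast this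
  rw [sum_congr rfl fun k hk => show _ = ((m + e).choose k : ℂ) *
      ((derivative^[(m + e - k).succ] (P ^ n)).eval z * (derivative^[k] P).eval z) by
      rw [Q, mul_assoc, show m + 1 + (e - k) = (m + e - k).succ by simp at hk; omega],
    sum_congr (s₁ := range e) rfl fun k hk => show _ = ((m + e).choose k : ℂ) *
      ((derivative^[m + e - k] (P ^ n)).eval z * (derivative^[k.succ] P).eval z) by
      rw [Q, mul_assoc, show m + 1 + (e - 1 - k) = m + e - k by simp at hk; omega], Q]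
  linear_combination (-(e + 1) : ℂ) * h1 +
    (derivative^[m] (P ^ n)).eval z * (derivative^[e + 1] P).eval z * h2

theorem shlowb_up {P : ℂ[X]} {δ : ℝ} (hδ : 0 < δ) {n : ℕ} (hn : 1 ≤ n) {z : ℂ}
    (h : ∀ w ∈ zeroSet P, δ ≤ ‖z - w‖) (j i : ℕ) :
    ‖(Q P n (j + i)).eval z‖ ≤ (P.natDegree / δ * n) ^ i * ‖(Q P n j).eval z‖ := by
  induction i with
  | zero => simp
  | succ i ih =>
    have h1 : ‖(Q P n (j + i + 1)).eval z‖ ≤ P.natDegree / δ * n * ‖(Q P n (j + i)).eval z‖ := by
      rcases le_or_gt (j + i) (n * P.natDegree) with e | e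
      · rw [Q_succ]
        refine (logd_le _ hδ fun w hw => h w ⟨n, _, hn, e, hw⟩).trans
          (mul_le_mul_of_nonneg_right ?_ (norm_nonneg _))
        rw [Q_deg, div_mul_eq_mul_div]
        refine div_le_div_of_nonneg_right ?_ hδ.le
        exact_mod_cast (Nat.sub_le _ _).trans_eq (mul_comm _ _)
      · rw [Q, iterate_derivative_eq_zero (by rw [natDegree_pow]; omega), eval_zero, norm_zero]
        positivity
    rw [pow_succ', mul_assoc]
    exact h1.trans (mul_le_mul_of_nonneg_left ih (by positivity))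

/-- Lower bound for the logarithmic derivatives of high order. -/
theorem lowB {P : ℂ[X]} (hP : 1 ≤ P.natDegree) (δ R ε : ℝ) (hδ : 0 < δ) (hε : 0 < ε) :
    ∃ c : ℝ, 0 < c ∧ ∀ n : ℕ, 1 ≤ n → ∀ z : ℂ, ‖z‖ ≤ R →
      (∀ w ∈ zeroSet P, δ ≤ ‖z - w‖) → ∀ m : ℕ, m < n * P.natDegree → ε * n ≤ m →
      c * ((n * P.natDegree - m : ℕ) : ℝ) * ‖(Q P n m).eval z‖ ≤
        ‖(Q P n (m + 1)).eval z‖ := by
  obtain ⟨e, he⟩ := Nat.exists_eq_add_of_le' hP
  obtain ⟨B, hB0, hB⟩ : ∃ B : ℝ, 0 < B ∧ ∀ z : ℂ, ‖z‖ ≤ R → ∀ k < e + 1,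
      ‖(derivative^[k] P).eval z‖ ≤ B := by
    obtain ⟨B, hB⟩ := (isCompact_closedBall (0 : ℂ) R).exists_bound_of_continuousOn
      (f := fun z (k : Fin (e + 1)) => (derivative^[k] P).eval z) (by fun_prop)
    exact ⟨max B 1, by positivity, fun z hz k hk => ((norm_le_pi_norm _ (⟨k, hk⟩ : Fin _)).trans
      (hB z (mem_closedBall_zero_iff.2 hz))).trans (le_max_left _ _)⟩
  obtain ⟨l, hl0, hl⟩ : ∃ l : ℝ, 0 < l ∧ ∀ z, ‖(derivative^[e + 1] P).eval z‖ = l := by
    have h0 : P ≠ 0 := fun h => by simp [h] at hP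
    have h1 : (derivative^[e + 1] P).natDegree = 0 :=
      Nat.le_zero.1 ((natDegree_iterate_derivative _ _).trans (by omega))
    refine ⟨‖(derivative^[e + 1] P).coeff 0‖, norm_pos_iff.2 ?_, fun z => ?_⟩
    · rw [coeff_iterate_derivative, zero_add, ← he, coeff_natDegree]
      exact smul_ne_zero (Nat.descFactorial_pos.2 le_rfl).ne' (leadingCoeff_ne_zero.2 h0)
    · rw [eq_C_of_natDegree_eq_zero h1, eval_C, coeff_C_zero]
  obtain ⟨T, hT⟩ : ∃ T : ℝ, T = 2 * P.natDegree + P.natDegree / δ := ⟨_, rfl⟩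
  have d1 : (1 : ℝ) ≤ P.natDegree := by exact_mod_cast hP
  have d2 : 0 ≤ P.natDegree / δ := by positivity
  have T1 : 1 ≤ T := by linarith
  refine ⟨ε ^ e / e.factorial * l / ((e + 1) * ((2 * e + 1) * (T ^ e * B))), by positivity,
    fun n hn z hz h m hm hε' => ?_⟩
  have n1 : (1 : ℝ) ≤ n := by exact_mod_cast hn
  have m1 : 1 ≤ m := Nat.cast_pos.1 ((by positivity : (0 : ℝ) < ε * n).trans_le hε')
  have hM : ((m + e : ℕ) : ℝ) ≤ T * n := by
    have : m + e ≤ 2 * P.natDegree * n := by nlinarith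
    have : ((m + e : ℕ) : ℝ) ≤ 2 * P.natDegree * n := by exact_mod_cast this
    nlinarith
  obtain ⟨a, ha⟩ : ∃ a, a = ‖(Q P n (m + 1)).eval z‖ := ⟨_, rfl⟩
  have a0 : 0 ≤ a := ha ▸ norm_nonneg _
  have key : ∀ k i j, j < e + 1 → ‖((m + e).choose k : ℂ) * (Q P n (m + 1 + i)).eval z *
      (derivative^[j] P).eval z‖ ≤ (T * n) ^ (k + i) * a * B := fun k i j hj => by
    rw [norm_mul, norm_mul, pow_add, mul_assoc ((T * n) ^ k), Complex.norm_natCast]
    refine mul_le_mul (mul_le_mul ?_ ((shlowb_up hδ hn h _ i).trans ?_) (norm_nonneg _)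
      (by positivity)) (hB z hz j hj) (norm_nonneg _) (by positivity)
    · exact (Nat.cast_le.2 (Nat.choose_le_pow _ _)).trans
        (by rw [Nat.cast_pow]; exact pow_le_pow_left₀ (Nat.cast_nonneg _) hM k)
    · rw [← ha]
      gcongr
      linarith
  have h1 := congrArg norm (shlowb_rec P he hn m1 z)
  have h2 : ‖((n : ℂ) * (e + 1) - m)‖ = (n * P.natDegree - m : ℕ) := by
    rw [← Complex.norm_natCast, Nat.cast_sub hm.le, he]
    push_cast
    rfl
  have h3 : ‖((e : ℂ) + 1)‖ = e + 1 := by exact_mod_cast Complex.norm_natCast (e + 1)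
  rw [norm_mul, norm_mul, norm_mul, norm_mul, hl, h2, h3, Complex.norm_natCast] at h1
  have h4 := h1.trans_le (mul_le_mul_of_nonneg_left ((norm_sub_le _ _).trans (add_le_add
    (norm_sum_le_of_le (n := fun _ => (T * n) ^ e * a * B) _ fun k hk =>
      (key k _ k (Finset.mem_range.1 hk)).trans_eq (by
        rw [Nat.add_sub_cancel' (Nat.lt_succ_iff.1 (Finset.mem_range.1 hk))]))
    (Finset.mul_sum _ _ (n : ℂ) ▸ norm_sum_le_of_le (n := fun _ => (T * n) ^ e * a * B) _
      fun k hk => by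
        have hk' := Finset.mem_range.1 hk
        rw [norm_mul, Complex.norm_natCast]
        refine (mul_le_mul (by nlinarith : (n : ℝ) ≤ T * n) (key k _ _ (by omega))
          (norm_nonneg _) (by positivity)).trans_eq ?_
        conv_rhs => rw [show e = k + (e - 1 - k) + 1 by omega, pow_succ']
        ring))) (by positivity))
  simp only [Finset.sum_const, Finset.card_range, nsmul_eq_mul] at h4
  have h5 : (ε * n) ^ e / e.factorial ≤ (m + e).choose e := by
    refine le_trans ?_ (Nat.pow_le_choose (α := ℝ) e (m + e))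
    rw [show m + e + 1 - e = m + 1 by omega]
    push_cast
    gcongr
    linarith
  rw [← ha, div_mul_eq_mul_div, div_mul_eq_mul_div, div_le_iff₀ (by positivity)]
  refine le_of_mul_le_mul_left ?_ (by positivity : (0 : ℝ) < n ^ e)
  have h6 := mul_le_mul_of_nonneg_right h5 (by positivity :
    0 ≤ ((n * P.natDegree - m : ℕ) : ℝ) * ‖(Q P n m).eval z‖ * l)
  rw [mul_pow] at h4 h6
  push_cast at h4
  calc _ = ε ^ e * n ^ e / e.factorial *
        (((n * P.natDegree - m : ℕ) : ℝ) * ‖(Q P n m).eval z‖ * l) := by ring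
    _ ≤ _ := h6
    _ ≤ _ := by linarith

end Pool.Agent.Lib.MP_424c76_an
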