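import Pool.Agent.Lib.MP_424c76_an.ShRouche
import Pool.Agent.Lib.MP_424c76_an.ShLowA
import Pool.Agent.Lib.MP_424c76_an.ShLowB

set_option autoImplicit false

open Polynomial

namespace Pool.Agent.Lib.MP_424c76_an

/-- Lower bound for all logarithmic derivatives. -/
theorem ShAP_low {P : ℂ[X]} (hP : 1 ≤ P.natDegree) (δ R : ℝ) (hδ : 0 < δ) :
    ∃ c : ℝ, 0 < c ∧ ∀ n : ℕ, 1 ≤ n → ∀ z : ℂ, ‖z‖ ≤ R →
      (∀ w ∈ zeroSet P, δ ≤ ‖z - w‖) → ∀ m : ℕ, m < n * P.natDegree →
      c * ((n * P.natDegree - m : ℕ) : ℝ) * ‖(Q P n m).eval z‖ ≤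
        ‖(Q P n (m + 1)).eval z‖ := by
  obtain ⟨ε, c₁, hε, h1, hA⟩ := lowA hP δ R hδ
  obtain ⟨c₂, h2, hB⟩ := lowB hP δ R ε hδ hε
  have hd : (0 : ℝ) < P.natDegree := by exact_mod_cast hP
  refine ⟨min (c₁ / P.natDegree) c₂, lt_min (by positivity) h2, fun n hn z hz hw m hm => ?_⟩
  rcases le_total (m : ℝ) (ε * n) with h | h
  · refine le_trans (mul_le_mul_of_nonneg_right ?_ (norm_nonneg _)) (hA n hn z hz hw m hm h)
    have h3 : ((n * P.natDegree - m : ℕ) : ℝ) ≤ n * P.natDegree := by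
      exact_mod_cast Nat.sub_le _ _
    refine (mul_le_mul (min_le_left _ _) h3 (Nat.cast_nonneg _) (by positivity)).trans_eq ?_
    field_simp
  · refine le_trans (mul_le_mul_of_nonneg_right ?_ (norm_nonneg _)) (hB n hn z hz hw m hm h)
    exact mul_le_mul_of_nonneg_right (min_le_right _ _) (Nat.cast_nonneg _)

/-- One step of the progression. -/
theorem ShAP_step (A : ℂ[X]) (V : Set ℂ) (hV : IsOpen V) (hD : 2 ≤ A.natDegree)
    (h : ∀ z ∈ frontier V, ‖(derivative (derivative A) * A - derivative A ^ 2).eval z‖ <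
      ‖(derivative A).eval z‖ ^ 2) :
    cnt V (derivative (derivative A)) + cnt V A = 2 * cnt V (derivative A) := by
  obtain ⟨e, he⟩ := Nat.exists_eq_add_of_le' hD
  have h0 : A ≠ 0 := fun h0 => by simp [h0] at hD
  have d1 : (derivative A).natDegree = e + 1 := by rw [natDegree_derivative, he]; rfl
  have d2 : (derivative (derivative A)).natDegree = e := by rw [natDegree_derivative, d1]; rfl
  have h2 : derivative (derivative A) ≠ 0 := derivative_ne_zero.2 (by omega)
  have d3 : (derivative A ^ 2).natDegree = e + (e + 2) := by rw [natDegree_pow, d1]; ring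
  have d4 : (derivative (derivative A) * A).natDegree = e + (e + 2) := by
    rw [natDegree_mul h2 h0, d2, he]
  have hl : 0 < ‖A.leadingCoeff‖ := norm_pos_iff.2 (leadingCoeff_ne_zero.2 h0)
  have h3 := rouche (derivative A ^ 2) (derivative (derivative A) * A - derivative A ^ 2) V hV
    ((natDegree_sub_le _ _).trans (by rw [d3, d4, max_self])) ?_
    fun z hz => by rw [eval_pow, norm_pow]; exact h z hz
  · rw [add_sub_cancel, cnt_mul V h2 h0, cnt_pow] at h3
    exact h3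
  · have e1 : (derivative (derivative A) * A).coeff (derivative A ^ 2).natDegree =
        (derivative (derivative A) * A).leadingCoeff := by rw [d3, ← d4, coeff_natDegree]
    have e2 : (derivative (derivative A) * A).leadingCoeff - (derivative A ^ 2).leadingCoeff =
        -(A.leadingCoeff ^ 2 * ((e + 2 : ℕ) : ℂ)) := by
      rw [leadingCoeff_mul, leadingCoeff_pow, leadingCoeff_derivative, leadingCoeff_derivative, d1,
        he]
      push_cast
      ring
    rw [coeff_sub, e1, coeff_natDegree, e2, leadingCoeff_pow, leadingCoeff_derivative, he, norm_neg,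
      norm_mul, norm_pow, norm_pow, norm_mul, Complex.norm_natCast, mul_pow]
    refine mul_lt_mul_of_pos_left ?_ (by positivity)
    push_cast
    nlinarith [(Nat.cast_nonneg e : (0 : ℝ) ≤ e)]

/-- The number of zeros in a separated open set is an arithmetic progression in the order. -/
theorem ap {P : ℂ[X]} (hP : 1 ≤ P.natDegree) (V : Set ℂ) (hV : IsOpen V) (δ R : ℝ) (hδ : 0 < δ)
    (h : ∀ z ∈ frontier V, ‖z‖ ≤ R ∧ ∀ w ∈ zeroSet P, δ ≤ ‖z - w‖) :
    ∃ K : ℕ, 2 ≤ K ∧ ∀ n m : ℕ, 1 ≤ n → m + K ≤ n * P.natDegree →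
      cnt V (Q P n (m + 2)) + cnt V (Q P n m) = 2 * cnt V (Q P n (m + 1)) := by
  obtain ⟨c, hc, hl⟩ := ShAP_low hP δ R hδ
  have hP0 : P ≠ 0 := fun h0 => by simp [h0] at hP
  refine ⟨⌈1 / (c * δ) ^ 2⌉₊ + 2, by omega, fun n m hn hm => ?_⟩
  have hD := Q_deg P n m
  rw [Q_succ P n (m + 1), Q_succ P n m]
  refine ShAP_step _ V hV (by omega) fun z hz => ?_
  obtain ⟨hz1, hz2⟩ := h z hz
  have hr : ∀ w, (Q P n m).IsRoot w → δ ≤ ‖z - w‖ := fun w hw =>
    hz2 w ⟨n, m, hn, by omega, hw⟩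
  have h0 : 0 < ‖(Q P n m).eval z‖ := norm_pos_iff.2 fun h0 => by
    have := hr z h0
    rw [sub_self, norm_zero] at this
    exact this.not_gt hδ
  have h1 := hl n hn z hz1 hz2 m (by omega)
  rw [Q_succ P n m, ← hD] at h1
  have h2 : 1 / (c * δ) ^ 2 < ((Q P n m).natDegree : ℝ) :=
    (Nat.le_ceil _).trans_lt (by exact_mod_cast (by omega))
  have h3 : (0 : ℝ) < (Q P n m).natDegree := lt_trans (by positivity) h2
  refine (logd2_le _ hδ hr).trans_lt (lt_of_lt_of_le ?_ (pow_le_pow_left₀ (by positivity) h1 2))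
  rw [mul_pow]
  refine mul_lt_mul_of_pos_right ?_ (by positivity)
  rw [div_lt_iff₀ (by positivity)] at h2 ⊢
  nlinarith [mul_lt_mul_of_pos_left h2 h3]

/-- A separated open set contains all roots of `P` or no zero of low order. -/
theorem dichotomy {P : ℂ[X]} (hP : 1 ≤ P.natDegree) (V : Set ℂ) (hV : IsOpen V) (δ R : ℝ)
    (hδ : 0 < δ) (h : ∀ z ∈ frontier V, ‖z‖ ≤ R ∧ ∀ w ∈ zeroSet P, δ ≤ ‖z - w‖) :
    (∀ z, P.IsRoot z → z ∈ V) ∨ ∃ K : ℕ, ∀ n m : ℕ, 1 ≤ n → m + K ≤ n * P.natDegree →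
      ∀ z ∈ V, ¬ (Q P n m).IsRoot z := by
  obtain ⟨K, -, hK⟩ := ap hP V hV δ R hδ h
  have hP0 : P ≠ 0 := fun h0 => by simp [h0] at hP
  obtain ⟨k, hk⟩ : ∃ k : ℤ, k = cnt V P := ⟨_, rfl⟩
  obtain ⟨w, hw⟩ : ∃ w : ℤ, w = cnt V (derivative P) - k := ⟨_, rfl⟩
  have key : ∀ n m : ℕ, 1 ≤ n → m + K ≤ n * P.natDegree →
      (cnt V (Q P n m) : ℤ) = n * k + w * m ∧
        (cnt V (Q P n (m + 1)) : ℤ) = n * k + w * (m + 1) := by
    intro n m hn
    induction m with
    | zero =>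
      refine fun _ => ⟨?_, ?_⟩
      · rw [show Q P n 0 = P ^ n from rfl, cnt_pow, hk]
        push_cast
        ring
      · rw [zero_add, cnt_Q_one V hP hn, hw, hk]
        push_cast [Nat.cast_sub hn]
        ring
    | succ m ih =>
      intro hm
      obtain ⟨h1, h2⟩ := ih (by omega)
      have h3 : (cnt V (Q P n (m + 2)) : ℤ) + cnt V (Q P n m) = 2 * cnt V (Q P n (m + 1)) := by
        exact_mod_cast hK n m hn (by omega)
      refine ⟨by rw [h2]; push_cast; ring, ?_⟩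
      rw [show m + 1 + 1 = m + 2 from rfl]
      push_cast
      linarith
  have ht : k + w * P.natDegree = 0 := by
    obtain ⟨n, hn⟩ : ∃ n : ℕ, n = K + w.natAbs * K + 1 := ⟨_, rfl⟩
    have h1 : K ≤ n * P.natDegree := le_trans (by omega) (Nat.le_mul_of_pos_right n hP)
    have h2 := (key n (n * P.natDegree - K) (by omega) (by omega)).1
    have h3 := cnt_le V (Q P n (n * P.natDegree - K))
    rw [Q_deg, Nat.sub_sub_self h1] at h3
    have h4 : (cnt V (Q P n (n * P.natDegree - K)) : ℤ) ≤ K := by exact_mod_cast h3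
    have h5 : (0 : ℤ) ≤ cnt V (Q P n (n * P.natDegree - K)) := Nat.cast_nonneg _
    rw [h2] at h4 h5
    push_cast [Nat.cast_sub h1] at h4 h5
    have h6 : (n : ℤ) = K + |w| * K + 1 := by
      rw [hn]
      push_cast
      rfl
    have h7 : (0 : ℤ) ≤ K := Nat.cast_nonneg _
    have h8 := mul_le_mul_of_nonneg_right (le_abs_self w) h7
    have h9 := mul_le_mul_of_nonneg_right (neg_abs_le w) h7
    have h10 : (0 : ℤ) ≤ n := Nat.cast_nonneg _
    by_contra hc
    rcases lt_or_gt_of_ne hc with hc | hc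
    · nlinarith [mul_le_mul_of_nonneg_left (Int.add_one_le_of_lt hc) h10]
    · nlinarith [mul_le_mul_of_nonneg_left (Int.add_one_le_of_lt hc) h10]
  rcases (cnt_le V P).eq_or_lt with he | he
  · exact Or.inl ((cnt_eq_deg hP0).1 he)
  have h1 : k < P.natDegree := by rw [hk]; exact_mod_cast he
  have h2 : 0 ≤ k := by rw [hk]; exact Nat.cast_nonneg _
  have h3 : w = 0 := by
    by_contra hc
    rcases lt_or_gt_of_ne hc with hc | hc
    · nlinarith [Int.add_one_le_of_lt hc]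
    · nlinarith [Int.add_one_le_of_lt hc]
  refine Or.inr ⟨K, fun n m hn hm => (cnt_eq_zero (Q_ne hP0 (by omega))).1 ?_⟩
  have h4 := (key n m hn hm).1
  rw [h3, zero_mul, add_zero] at ht h4
  rw [ht, mul_zero] at h4
  exact_mod_cast h4

end Pool.Agent.Lib.MP_424c76_an
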