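import Pool.Agent.Lib.MP_424c76_an.Defs

set_option autoImplicit false

open Polynomial

namespace Pool.Agent.Lib.MP_424c76_an

open scoped Classical in
/-- Number of roots in `V`, with multiplicity. -/
noncomputable def cnt (V : Set ℂ) (A : ℂ[X]) : ℕ := (A.roots.filter fun z => z ∈ V).card

theorem cnt_mul (V : Set ℂ) {A B : ℂ[X]} (hA : A ≠ 0) (hB : B ≠ 0) :
    cnt V (A * B) = cnt V A + cnt V B := by
  unfold cnt
  rw [roots_mul (mul_ne_zero hA hB), Multiset.filter_add, Multiset.card_add]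

theorem cnt_pow (V : Set ℂ) (A : ℂ[X]) (n : ℕ) : cnt V (A ^ n) = n * cnt V A := by
  unfold cnt
  rw [roots_pow, Multiset.filter_nsmul, Multiset.card_nsmul]

theorem cnt_le (V : Set ℂ) (A : ℂ[X]) : cnt V A ≤ A.natDegree := by
  classical
  unfold cnt
  exact (Multiset.card_le_card (Multiset.filter_le _ _)).trans (card_roots' A)

theorem cnt_eq_zero {V : Set ℂ} {A : ℂ[X]} (hA : A ≠ 0) :
    cnt V A = 0 ↔ ∀ z ∈ V, ¬ A.IsRoot z := by
  classical
  unfold cnt
  rw [Multiset.card_eq_zero, Multiset.filter_eq_nil]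
  constructor
  · intro h z hz hr
    exact h z ((mem_roots hA).2 hr) hz
  · intro h z hr hz
    exact h z hz ((mem_roots hA).1 hr)

theorem cnt_eq_deg {V : Set ℂ} {A : ℂ[X]} (hA : A ≠ 0) :
    cnt V A = A.natDegree ↔ ∀ z, A.IsRoot z → z ∈ V := by
  classical
  unfold cnt
  rw [← IsAlgClosed.card_roots_eq_natDegree]
  constructor
  · intro h z hz
    have e := Multiset.eq_of_le_of_card_le (Multiset.filter_le _ _) h.ge
    exact Multiset.filter_eq_self.1 e z ((mem_roots hA).2 hz)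
  · intro h
    rw [Multiset.filter_eq_self.2 fun z hz => h z ((mem_roots hA).1 hz)]

theorem Q_succ (P : ℂ[X]) (n m : ℕ) : Q P n (m + 1) = derivative (Q P n m) := by
  unfold Q
  rw [Function.iterate_succ_apply']

theorem ShBasic_deg (P : ℂ[X]) (n m : ℕ) : (Q P n m).natDegree = n * P.natDegree - m := by
  induction m with
  | zero =>
    show (P ^ n).natDegree = _
    rw [natDegree_pow, Nat.sub_zero]
  | succ m ih => rw [Q_succ, natDegree_derivative, ih, Nat.sub_sub]

theorem Q_ne {P : ℂ[X]} (hP : P ≠ 0) {n m : ℕ} (h : m ≤ n * P.natDegree) : Q P n m ≠ 0 := by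
  cases m with
  | zero => exact pow_ne_zero n hP
  | succ m =>
    rw [Q_succ, derivative_ne_zero, ShBasic_deg]
    omega

theorem Q_deg (P : ℂ[X]) (n m : ℕ) : (Q P n m).natDegree = n * P.natDegree - m :=
  ShBasic_deg P n m

theorem cnt_Q_one (V : Set ℂ) {P : ℂ[X]} (hP : 1 ≤ P.natDegree) {n : ℕ} (hn : 1 ≤ n) :
    cnt V (Q P n 1) = (n - 1) * cnt V P + cnt V (derivative P) := by
  have hP0 : P ≠ 0 := by
    rintro rfl
    simp at hP
  have hd : derivative P ≠ 0 := derivative_ne_zero.2 (by omega)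
  have hc : (C (n : ℂ) : ℂ[X]) ≠ 0 := C_ne_zero.2 (Nat.cast_ne_zero.2 (by omega))
  have e : Q P n 1 = C (n : ℂ) * P ^ (n - 1) * derivative P := derivative_pow P n
  have h0 : cnt V (C (n : ℂ)) = 0 := Nat.le_zero.1 ((cnt_le V _).trans (natDegree_C _).le)
  rw [e, cnt_mul V (mul_ne_zero hc (pow_ne_zero _ hP0)) hd, cnt_mul V hc (pow_ne_zero _ hP0),
    cnt_pow, h0, zero_add]

theorem ShBasic_ind {z : ℂ} {δ : ℝ} (hδ : 0 < δ) (c : ℂ) (s : Multiset ℂ)
    (h : ∀ w ∈ s, δ ≤ ‖z - w‖) (A : ℂ[X]) (hA : A = C c * (s.map fun a => X - C a).prod) :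
    ‖(derivative A).eval z‖ ≤ s.card / δ * ‖A.eval z‖ ∧
    ‖(derivative (derivative A) * A - derivative A ^ 2).eval z‖ ≤
      s.card / δ ^ 2 * ‖A.eval z‖ ^ 2 := by
  induction s using Multiset.induction_on generalizing A with
  | empty =>
    subst hA
    simp
  | cons r s ih =>
    obtain ⟨i1, i2⟩ := ih (fun w hw => h w (Multiset.mem_cons_of_mem hw)) _ rfl
    set A0 : ℂ[X] := C c * (s.map fun a => X - C a).prod with hA0
    have hr := h r (Multiset.mem_cons_self r s)
    have e : A = A0 * (X - C r) := by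
      rw [hA, hA0, Multiset.map_cons, Multiset.prod_cons]
      ring
    have e1 : derivative A = derivative A0 * (X - C r) + A0 := by
      rw [e, derivative_mul, derivative_X_sub_C, mul_one]
    have e2 : derivative (derivative A) * A - derivative A ^ 2 =
        (derivative (derivative A0) * A0 - derivative A0 ^ 2) * (X - C r) ^ 2 - A0 ^ 2 := by
      rw [e1, derivative_add, derivative_mul, derivative_X_sub_C, mul_one, e]
      ring
    have hu : 1 ≤ ‖z - r‖ / δ := (one_le_div hδ).2 hr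
    have ha : 0 ≤ ‖A0.eval z‖ := norm_nonneg _
    have hu0 : 0 ≤ ‖z - r‖ := norm_nonneg _
    have ev : ‖A.eval z‖ = ‖A0.eval z‖ * ‖z - r‖ := by
      rw [e, eval_mul, eval_sub, eval_X, eval_C, norm_mul]
    rw [ev, e2, e1, Multiset.card_cons]
    push_cast
    constructor
    · rw [eval_add, eval_mul, eval_sub, eval_X, eval_C]
      refine (norm_add_le _ _).trans ?_
      rw [norm_mul]
      have b1 := mul_le_mul_of_nonneg_right i1 hu0
      have b2 := mul_le_mul_of_nonneg_left hu ha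
      have b3 : ((s.card : ℝ) + 1) / δ * (‖A0.eval z‖ * ‖z - r‖) =
          s.card / δ * ‖A0.eval z‖ * ‖z - r‖ + ‖A0.eval z‖ * (‖z - r‖ / δ) := by ring
      linarith
    · have e3 : ((X - C r) ^ 2 : ℂ[X]).eval z = (z - r) ^ 2 := by
        rw [eval_pow, eval_sub, eval_X, eval_C]
      have e4 : (A0 ^ 2).eval z = A0.eval z ^ 2 := eval_pow 2
      rw [eval_sub, eval_mul, e3, e4]
      refine (norm_sub_le _ _).trans ?_
      rw [norm_mul, norm_pow, norm_pow]
      have b1 := mul_le_mul_of_nonneg_right i2 (pow_nonneg hu0 2)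
      have b2 := mul_le_mul_of_nonneg_left (one_le_pow₀ hu (n := 2)) (pow_nonneg ha 2)
      have b3 : ((s.card : ℝ) + 1) / δ ^ 2 * (‖A0.eval z‖ * ‖z - r‖) ^ 2 =
          s.card / δ ^ 2 * ‖A0.eval z‖ ^ 2 * ‖z - r‖ ^ 2 +
            ‖A0.eval z‖ ^ 2 * (‖z - r‖ / δ) ^ 2 := by ring
      linarith

theorem ShBasic_both (A : ℂ[X]) {z : ℂ} {δ : ℝ} (hδ : 0 < δ)
    (h : ∀ w, A.IsRoot w → δ ≤ ‖z - w‖) :
    ‖(derivative A).eval z‖ ≤ A.natDegree / δ * ‖A.eval z‖ ∧
    ‖(derivative (derivative A) * A - derivative A ^ 2).eval z‖ ≤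
      A.natDegree / δ ^ 2 * ‖A.eval z‖ ^ 2 := by
  have := ShBasic_ind hδ A.leadingCoeff A.roots (fun w hw => h w (isRoot_of_mem_roots hw)) A
    (C_leadingCoeff_mul_prod_multiset_X_sub_C IsAlgClosed.card_roots_eq_natDegree).symm
  rwa [IsAlgClosed.card_roots_eq_natDegree] at this

/-- The logarithmic derivative away from the roots. -/
theorem logd_le (A : ℂ[X]) {z : ℂ} {δ : ℝ} (hδ : 0 < δ)
    (h : ∀ w, A.IsRoot w → δ ≤ ‖z - w‖) :
    ‖(derivative A).eval z‖ ≤ A.natDegree / δ * ‖A.eval z‖ := (ShBasic_both A hδ h).1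

/-- The derivative of the logarithmic derivative away from the roots. -/
theorem logd2_le (A : ℂ[X]) {z : ℂ} {δ : ℝ} (hδ : 0 < δ)
    (h : ∀ w, A.IsRoot w → δ ≤ ‖z - w‖) :
    ‖(derivative (derivative A) * A - derivative A ^ 2).eval z‖ ≤
      A.natDegree / δ ^ 2 * ‖A.eval z‖ ^ 2 := (ShBasic_both A hδ h).2

theorem ShBasic_ball {P : ℂ[X]} (hP : P ≠ 0) {R : ℝ}
    (hR : ∀ w, P.IsRoot w → w ∈ Metric.closedBall (0 : ℂ) R) (n m : ℕ)
    (hm : m ≤ n * P.natDegree) :
    ∀ w, (Q P n m).IsRoot w → w ∈ Metric.closedBall (0 : ℂ) R := by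
  induction m with
  | zero =>
    intro w hw
    have hw' : (P ^ n).eval w = 0 := hw
    rw [eval_pow] at hw'
    exact hR w (pow_eq_zero_iff'.1 hw').1
  | succ m ih =>
    intro w hw
    have hne := Q_ne hP hm
    rw [Q_succ] at hw hne
    have hdeg : 0 < (Q P n m).degree := by
      rw [← natDegree_pos_iff_degree_pos, Q_deg]
      omega
    have h1 : w ∈ (derivative (Q P n m)).rootSet ℂ := by
      rw [mem_rootSet, coe_aeval_eq_eval]
      exact ⟨hne, hw⟩
    refine convexHull_min ?_ (convex_closedBall _ _)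
      (rootSet_derivative_subset_convexHull_rootSet hdeg h1)
    intro v hv
    rw [mem_rootSet, coe_aeval_eq_eval] at hv
    exact ih (by omega) v hv.2

theorem compact_shadow {P : ℂ[X]} (hP : 1 ≤ P.natDegree) : IsCompact (shadow P) := by
  have hP0 : P ≠ 0 := by
    rintro rfl
    simp at hP
  obtain ⟨R, hR⟩ := (P.rootSet_finite ℂ).isBounded.subset_closedBall (0 : ℂ)
  have hR' : ∀ w, P.IsRoot w → w ∈ Metric.closedBall (0 : ℂ) R := fun w hw => hR (by
    rw [mem_rootSet, coe_aeval_eq_eval]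
    exact ⟨hP0, hw⟩)
  refine Bornology.IsBounded.isCompact_closure
    ((Metric.isBounded_closedBall (x := (0 : ℂ)) (r := R)).subset ?_)
  rintro z ⟨n, m, _, hm, hz⟩
  exact ShBasic_ball hP0 hR' n m hm z hz

end Pool.Agent.Lib.MP_424c76_an
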