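import Pool.Agent.Lib.MP_424c76_an.ShBasic

set_option autoImplicit false

open Polynomial

namespace Pool.Agent.Lib.MP_424c76_an

theorem shCent_pow (R : ℂ[X]) (h0 : R.coeff 0 = 1) (h1 : R.coeff 1 = 0) (j : ℕ) :
    ∃ B : ℝ, 0 ≤ B ∧ ∀ l ≤ j, ∀ n : ℕ, ‖(R ^ n).coeff l‖ ≤ B * ((n : ℝ) + 1) ^ (l - 1) := by
  have c0 : ∀ n : ℕ, (R ^ n).coeff 0 = 1 := fun n => by
    rw [coeff_zero_eq_eval_zero, eval_pow, ← coeff_zero_eq_eval_zero, h0, one_pow]
  have rec1 : ∀ n l : ℕ, (R ^ (n + 1)).coeff (l + 1) = (R ^ n).coeff (l + 1) +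
      ∑ x ∈ Finset.HasAntidiagonal.antidiagonal l,
        R.coeff (x.1 + 1) * (R ^ n).coeff x.2 := fun n l => by
    rw [pow_succ', coeff_mul, Finset.Nat.sum_antidiagonal_succ, h0, one_mul]
  induction j with
  | zero =>
    refine ⟨1, zero_le_one, fun l hl n => ?_⟩
    rw [Nat.le_zero.1 hl, c0]
    simp
  | succ j ih =>
    obtain ⟨B, hB, ih⟩ := ih
    obtain ⟨T, hT⟩ : ∃ T : ℝ,
        T = ∑ x ∈ Finset.HasAntidiagonal.antidiagonal j, ‖R.coeff (x.1 + 1)‖ := ⟨_, rfl⟩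
    have hT0 : 0 ≤ T := hT ▸ Finset.sum_nonneg fun _ _ => norm_nonneg _
    refine ⟨B + T * B, by positivity, fun l hl n => ?_⟩
    rcases hl.lt_or_eq with hl | rfl
    · refine (ih l (Nat.lt_succ_iff.1 hl) n).trans (mul_le_mul_of_nonneg_right ?_ (by positivity))
      linarith [mul_nonneg hT0 hB]
    refine le_trans ?_ (mul_le_mul_of_nonneg_right (le_add_of_nonneg_left hB) (by positivity))
    rw [Nat.add_sub_cancel]
    induction n with
    | zero =>
      rw [pow_zero, coeff_one, if_neg (Nat.succ_ne_zero j), norm_zero]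
      positivity
    | succ n ihn =>
      rw [rec1]
      rcases Nat.eq_zero_or_pos j with rfl | hj
      · simpa [h1] using ihn
      have n0 : (0 : ℝ) ≤ n := Nat.cast_nonneg n
      have h2 : ‖∑ x ∈ Finset.HasAntidiagonal.antidiagonal j,
          R.coeff (x.1 + 1) * (R ^ n).coeff x.2‖ ≤ T * (B * ((n : ℝ) + 1) ^ (j - 1)) := by
        rw [hT, Finset.sum_mul]
        refine (norm_sum_le _ _).trans (Finset.sum_le_sum fun x hx => ?_)
        have hx' := Finset.HasAntidiagonal.mem_antidiagonal.1 hx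
        rw [norm_mul]
        refine mul_le_mul_of_nonneg_left ((ih x.2 (by omega) n).trans ?_) (norm_nonneg _)
        exact mul_le_mul_of_nonneg_left (pow_le_pow_right₀ (by linarith) (by omega)) hB
      obtain ⟨i, rfl⟩ : ∃ i, j = i + 1 := ⟨j - 1, by omega⟩
      rw [Nat.add_sub_cancel] at h2
      have h3 : ((n : ℝ) + 1) ^ i ≤ ((n : ℝ) + 1 + 1) ^ i :=
        pow_le_pow_left₀ (by linarith) (by linarith) i
      have h4 := mul_le_mul_of_nonneg_left h3 (mul_nonneg (mul_nonneg hT0 hB)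
        (show (0 : ℝ) ≤ n + 1 + 1 by linarith))
      rw [pow_succ] at ihn
      rw [pow_succ, Nat.cast_succ]
      linarith [norm_add_le ((R ^ n).coeff (i + 1 + 1))
        (∑ x ∈ Finset.HasAntidiagonal.antidiagonal (i + 1),
          R.coeff (x.1 + 1) * (R ^ n).coeff x.2)]

theorem shCent_desc (m K k j : ℕ) (h : k + j ≤ K) :
    (k + m).descFactorial m * (m + 1) ^ j ≤ (k + j + m).descFactorial m * K ^ j := by
  induction j with
  | zero => simp
  | succ j ih =>
    have h1 := Nat.succ_descFactorial (k + j + m) m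
    have h2 : (k + j + m).descFactorial m * (m + 1) ≤ (k + j + m + 1).descFactorial m * K := by
      rw [mul_comm, mul_comm _ K]
      refine (Nat.mul_le_mul_right _ (show m + 1 ≤ k + j + m + 1 by omega)).trans ?_
      rw [← h1]
      exact Nat.mul_le_mul_right _ (by omega)
    rw [show k + (j + 1) + m = k + j + m + 1 by omega, pow_succ, pow_succ, ← mul_assoc]
    refine (Nat.mul_le_mul_right _ (ih (by omega))).trans ?_
    rw [mul_right_comm, mul_comm (K ^ j), ← mul_assoc]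
    exact Nat.mul_le_mul_right _ h2

theorem shCent_root (q : ℂ[X]) (D K : ℕ) (η : ℝ) (hη : 0 < η) (hD : q.natDegree ≤ D)
    (hK : D ≤ K) (h0 : q.coeff D ≠ 0)
    (h : ∀ k < D, ‖q.coeff k‖ * (K + 1) ≤ ‖q.coeff D‖ * η ^ (D - k)) (y : ℂ)
    (hy : q.eval y = 0) : ‖y‖ < η := by
  by_contra hc
  rw [not_lt] at hc
  have y0 : 0 < ‖y‖ := hη.trans_le hc
  rw [eval_eq_sum_range' (Nat.lt_succ_of_le hD), Finset.sum_range_succ, add_eq_zero_iff_neg_eq]
    at hy
  have h1 : ‖q.coeff D‖ * ‖y‖ ^ D ≤ ∑ k ∈ Finset.range D, ‖q.coeff k‖ * ‖y‖ ^ k := by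
    rw [← norm_pow, ← norm_mul, ← hy, norm_neg]
    refine (norm_sum_le _ _).trans (le_of_eq (Finset.sum_congr rfl fun k _ => ?_))
    rw [norm_mul, norm_pow]
  have h2 : (∑ k ∈ Finset.range D, ‖q.coeff k‖ * ‖y‖ ^ k) * (K + 1) ≤
      ∑ _k ∈ Finset.range D, ‖q.coeff D‖ * ‖y‖ ^ D := by
    rw [Finset.sum_mul]
    refine Finset.sum_le_sum fun k hk => ?_
    have hk' := Finset.mem_range.1 hk
    have e : ‖y‖ ^ D = ‖y‖ ^ (D - k) * ‖y‖ ^ k := by rw [← pow_add, Nat.sub_add_cancel hk'.le]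
    rw [mul_right_comm, e, ← mul_assoc]
    refine mul_le_mul_of_nonneg_right ((h k hk').trans ?_) (by positivity)
    exact mul_le_mul_of_nonneg_left (pow_le_pow_left₀ hη.le hc _) (norm_nonneg _)
  rw [Finset.sum_const, Finset.card_range, nsmul_eq_mul] at h2
  have h3 : 0 < ‖q.coeff D‖ * ‖y‖ ^ D := mul_pos (norm_pos_iff.2 h0) (pow_pos y0 D)
  have h4 : (D : ℝ) ≤ K := Nat.cast_le.2 hK
  have h5 := mul_le_mul_of_nonneg_right h1 (show (0 : ℝ) ≤ K + 1 by positivity)
  linarith [mul_le_mul_of_nonneg_right h4 h3.le]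

theorem shCent_reverse (U : ℂ[X]) (n : ℕ) : (U ^ n).reverse = U.reverse ^ n := by
  induction n with
  | zero => rw [pow_zero, pow_zero, ← C_1, reverse_C]
  | succ n ih => rw [pow_succ, pow_succ, reverse_mul_of_domain, ih]

theorem shCent_iter (g : ℂ) (A : ℂ[X]) (m : ℕ) :
    derivative^[m] (taylor g A) = taylor g (derivative^[m] A) := by
  induction m with
  | zero => rfl
  | succ m ih =>
    rw [Function.iterate_succ_apply', Function.iterate_succ_apply', ih, taylor_apply, taylor_apply,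
      derivative_comp, derivative_add, derivative_X, derivative_C, add_zero, one_mul]

theorem shCent_monic {U : ℂ[X]} (hU : U.Monic) (hd : 1 ≤ U.natDegree)
    (h1 : U.coeff (U.natDegree - 1) = 0) (K : ℕ) (η : ℝ) (hη : 0 < η) :
    ∃ N : ℕ, ∀ n m : ℕ, N ≤ n → m ≤ n * U.natDegree → n * U.natDegree ≤ m + K →
      ∀ y, (derivative^[m] (U ^ n)).eval y = 0 → ‖y‖ < η := by
  obtain ⟨B, hB, hc⟩ := shCent_pow U.reverse (by rw [coeff_zero_reverse, hU.leadingCoeff])
    (by rw [coeff_reverse, revAt_le hd, h1]) K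
  have ev : ∀ᶠ n : ℕ in Filter.atTop, ∀ j ∈ Finset.range (K + 1),
      B * (K + 1) * (2 * K) ^ j / η ^ j ≤ (n : ℝ) :=
    (Filter.eventually_all_finset _).2 fun j _ =>
      tendsto_natCast_atTop_atTop.eventually_ge_atTop _
  obtain ⟨N, hN⟩ := Filter.eventually_atTop.1 (ev.and (Filter.eventually_ge_atTop (2 * K)))
  refine ⟨N, fun n m hn hm hK y hy => ?_⟩
  obtain ⟨e1, e2⟩ := hN n hn
  obtain ⟨D, hD⟩ : ∃ D, n * U.natDegree = D + m := ⟨n * U.natDegree - m, by omega⟩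
  have hdeg : (U ^ n).natDegree = D + m := by rw [natDegree_pow, hD]
  have hnd : n ≤ n * U.natDegree := Nat.le_mul_of_pos_right n hd
  have top : (derivative^[m] (U ^ n)).coeff D = ((D + m).descFactorial m : ℂ) := by
    rw [coeff_iterate_derivative, ← hdeg, (hU.pow n).coeff_natDegree, nsmul_one]
  refine shCent_root _ D K η hη ((natDegree_iterate_derivative _ _).trans (by omega)) (by omega)
    ?_ (fun k hk => ?_) y hy
  · rw [top]
    exact Nat.cast_ne_zero.2 (Nat.descFactorial_pos.2 (by omega)).ne'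
  obtain ⟨i, rfl⟩ : ∃ i, D = k + (i + 1) := ⟨D - k - 1, by omega⟩
  have c1 := hc (i + 1) (by omega) n
  rw [← shCent_reverse, coeff_reverse, hdeg, revAt_le (by omega),
    show k + (i + 1) + m - (i + 1) = k + m by omega, Nat.add_sub_cancel] at c1
  have c2 : ((k + m).descFactorial m : ℝ) * ((m : ℝ) + 1) ^ (i + 1) ≤
      ((k + (i + 1) + m).descFactorial m : ℝ) * (K : ℝ) ^ (i + 1) := by
    exact_mod_cast shCent_desc m K k (i + 1) (by omega)
  have c3 := e1 (i + 1) (Finset.mem_range.2 (by omega))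
  rw [div_le_iff₀ (pow_pos hη _), mul_pow] at c3
  have c4 : ((n : ℝ) + 1) ^ (i + 1) ≤ 2 ^ (i + 1) * ((m : ℝ) + 1) ^ (i + 1) := by
    rw [← mul_pow]
    refine pow_le_pow_left₀ (by positivity) ?_ _
    exact_mod_cast (show n + 1 ≤ 2 * (m + 1) by omega)
  rw [top, coeff_iterate_derivative, nsmul_eq_mul, norm_mul, Complex.norm_natCast,
    Complex.norm_natCast, Nat.add_sub_cancel_left]
  generalize ((k + m).descFactorial m : ℝ) = f at c2 ⊢
  have F0 : (0 : ℝ) ≤ (k + (i + 1) + m).descFactorial m := Nat.cast_nonneg _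
  generalize ((k + (i + 1) + m).descFactorial m : ℝ) = F at c2 F0 ⊢
  have c0 := norm_nonneg ((U ^ n).coeff (k + m))
  generalize ‖(U ^ n).coeff (k + m)‖ = c at c1 c0 ⊢
  have m0 : 0 < ((m : ℝ) + 1) ^ (i + 1) := by positivity
  have t0 : (0 : ℝ) < 2 ^ (i + 1) := by positivity
  have η0 := pow_pos hη (i + 1)
  refine le_of_mul_le_mul_right ?_ (mul_pos t0 m0)
  calc f * c * (K + 1) * (2 ^ (i + 1) * ((m : ℝ) + 1) ^ (i + 1))
      = f * ((m : ℝ) + 1) ^ (i + 1) * (c * ((K + 1) * 2 ^ (i + 1))) := by ring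
    _ ≤ F * (K : ℝ) ^ (i + 1) * (B * ((n : ℝ) + 1) ^ i * ((K + 1) * 2 ^ (i + 1))) :=
      mul_le_mul c2 (mul_le_mul_of_nonneg_right c1 (by positivity)) (by positivity)
        (by positivity)
    _ = F * ((n : ℝ) + 1) ^ i * (B * (K + 1) * (2 ^ (i + 1) * (K : ℝ) ^ (i + 1))) := by ring
    _ ≤ F * ((n : ℝ) + 1) ^ i * (((n : ℝ) + 1) * η ^ (i + 1)) :=
      mul_le_mul_of_nonneg_left (by linarith) (by positivity)
    _ = F * η ^ (i + 1) * ((n : ℝ) + 1) ^ (i + 1) := by ring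
    _ ≤ _ := mul_le_mul_of_nonneg_left c4 (by positivity)

/-- The zeros of the last derivatives tend to the centroid of the roots. -/
theorem centroid {P : ℂ[X]} (hP : 1 ≤ P.natDegree) :
    ∃ g ∈ zeroSet P, ∀ (K : ℕ) (η : ℝ), 0 < η → ∃ N : ℕ, ∀ n m : ℕ, N ≤ n →
      m ≤ n * P.natDegree → n * P.natDegree ≤ m + K →
      ∀ z, (Q P n m).IsRoot z → ‖z - g‖ < η := by
  obtain ⟨g, hg⟩ := Complex.exists_root (f := Q P 1 (P.natDegree - 1))
    (natDegree_pos_iff_degree_pos.1 (by rw [Q_deg]; omega))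
  have hP0 : P ≠ 0 := fun e => by simp [e] at hP
  have hl : P.leadingCoeff ≠ 0 := leadingCoeff_ne_zero.2 hP0
  have hd : (taylor g (C P.leadingCoeff⁻¹ * P)).natDegree = P.natDegree := by
    rw [natDegree_taylor, natDegree_C_mul (inv_ne_zero hl)]
  have key : ∀ (n m : ℕ) (z : ℂ), (Q P n m).IsRoot z →
      (derivative^[m] (taylor g (C P.leadingCoeff⁻¹ * P) ^ n)).eval (z - g) = 0 :=
    fun n m z hz => by
      rw [← taylor_pow, shCent_iter, taylor_eval_sub, mul_pow, ← C_pow, iterate_derivative_C_mul,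
        eval_mul]
      exact mul_eq_zero_of_right _ hz
  refine ⟨g, ⟨1, P.natDegree - 1, le_rfl, by omega, hg⟩, fun K η hη => ?_⟩
  obtain ⟨N, hN⟩ := shCent_monic (U := taylor g (C P.leadingCoeff⁻¹ * P))
    (by rw [Monic, leadingCoeff_taylor, leadingCoeff_mul, leadingCoeff_C, inv_mul_cancel₀ hl])
    (hd ▸ hP) (by
      have h := key 1 _ g hg
      rw [sub_self, ← coeff_zero_eq_eval_zero, coeff_iterate_derivative, pow_one, zero_add,
        nsmul_eq_mul] at h
      rw [hd]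
      exact (mul_eq_zero.1 h).resolve_left
        (Nat.cast_ne_zero.2 (Nat.descFactorial_pos.2 le_rfl).ne')) K η hη
  rw [hd] at hN
  exact ⟨N, fun n m hn hm hK z hz => hN n m hn hm hK _ (key n m z hz)⟩

end Pool.Agent.Lib.MP_424c76_an
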