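import Pool.Agent.Lib.MP_424c76_an.ShBasic

set_option autoImplicit false

open Polynomial

namespace Pool.Agent.Lib.MP_424c76_an

theorem ShRouche_roots {N : ℕ} {H : ℂ[X]} {c : ℂ} (hc : c ≠ 0) {r : Fin N → ℂ}
    (h : ∀ z, H.eval z = c * ∏ i, (z - r i)) : H.roots = Finset.univ.val.map r := by
  have e : H = C c * ((Finset.univ.val.map r).map fun a => X - C a).prod :=
    Polynomial.funext fun z => by
      rw [h, Multiset.map_map, eval_mul, eval_C, eval_multiset_prod, Multiset.map_map]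
      simp only [Function.comp, eval_sub, eval_X, eval_C]
      rfl
  rw [e, roots_C_mul _ hc, roots_multiset_prod_X_sub_C]

theorem ShRouche_exists {N : ℕ} {H : ℂ[X]} (hN : H.natDegree = N) :
    ∃ r : Fin N → ℂ, ∀ z, H.eval z = H.leadingCoeff * ∏ i, (z - r i) := by
  have hc : Multiset.card H.roots = H.natDegree := IsAlgClosed.card_roots_eq_natDegree
  have e := C_leadingCoeff_mul_prod_multiset_X_sub_C hc
  obtain ⟨l, hl⟩ := Quotient.exists_rep H.roots
  have hl' : (l : Multiset ℂ) = H.roots := hl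
  rw [← hl', hN, Multiset.coe_card] at hc
  subst hc
  have e1 : H.roots = Finset.univ.val.map l.get := by rw [Fin.univ_val_map, List.ofFn_get, hl']
  refine ⟨l.get, fun z => ?_⟩
  conv_lhs => rw [← e, e1]
  rw [Multiset.map_map, eval_mul, eval_C, eval_multiset_prod, Multiset.map_map]
  simp only [Function.comp, eval_sub, eval_X, eval_C]
  rfl

theorem ShRouche_cnt {N : ℕ} (V : Set ℂ) {H : ℂ[X]} {r : Fin N → ℂ}
    (h : H.roots = Finset.univ.val.map r) : cnt V H = ∑ i, V.indicator (fun _ => 1) (r i) := by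
  classical
  rw [cnt, h, ← Multiset.countP_eq_card_filter, Multiset.countP_map]
  simp only [Set.indicator_apply]
  rw [← Finset.card_filter]
  rfl

/-- The theorem of Rouche for polynomials and an arbitrary open set. -/
theorem rouche (A B : ℂ[X]) (V : Set ℂ) (hV : IsOpen V) (hd : B.natDegree ≤ A.natDegree)
    (hl : ‖B.coeff A.natDegree‖ < ‖A.leadingCoeff‖)
    (h : ∀ z ∈ frontier V, ‖B.eval z‖ < ‖A.eval z‖) : cnt V (A + B) = cnt V A := by
  generalize hN : A.natDegree = N at hd hl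
  have hA : A.leadingCoeff = A.coeff N := by rw [leadingCoeff, hN]
  rw [hA] at hl
  have small : ∀ t ∈ Set.Icc (0 : ℝ) 1, ∀ b : ℂ, ‖(t : ℂ) * b‖ ≤ ‖b‖ := fun t ht b => by
    rw [norm_mul, Complex.norm_real, Real.norm_of_nonneg ht.1]
    exact mul_le_of_le_one_left (norm_nonneg _) ht.2
  have low : ∀ t ∈ Set.Icc (0 : ℝ) 1, ∀ a b : ℂ, ‖a‖ - ‖b‖ ≤ ‖a + (t : ℂ) * b‖ :=
    fun t ht a b => by linarith [norm_sub_le_norm_add a ((t : ℂ) * b), small t ht b]
  have lc0 : ∀ t ∈ Set.Icc (0 : ℝ) 1, A.coeff N + (t : ℂ) * B.coeff N ≠ 0 := fun t ht =>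
    norm_pos_iff.1 (by linarith [low t ht (A.coeff N) (B.coeff N)])
  have co : ∀ (t : ℝ) (i : ℕ), (A + C (t : ℂ) * B).coeff i = A.coeff i + (t : ℂ) * B.coeff i :=
    fun t i => by rw [coeff_add, coeff_C_mul]
  have deg : ∀ t ∈ Set.Icc (0 : ℝ) 1, (A + C (t : ℂ) * B).natDegree = N := fun t ht =>
    natDegree_eq_of_le_of_coeff_ne_zero
      (natDegree_add_le_of_degree_le hN.le ((natDegree_C_mul_le _ _).trans hd))
      (by rw [co]; exact lc0 t ht)
  have lc : ∀ t ∈ Set.Icc (0 : ℝ) 1,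
      (A + C (t : ℂ) * B).leadingCoeff = A.coeff N + (t : ℂ) * B.coeff N := fun t ht => by
    rw [leadingCoeff, deg t ht, co]
  have ne : ∀ t ∈ Set.Icc (0 : ℝ) 1, A + C (t : ℂ) * B ≠ 0 := fun t ht e =>
    lc0 t ht (by rw [← lc t ht, e, leadingCoeff_zero])
  obtain ⟨R, hR⟩ : ∃ R : ℝ, ∀ t ∈ Set.Icc (0 : ℝ) 1, ∀ z, (A + C (t : ℂ) * B).IsRoot z →
      ‖z‖ ≤ R := by
    obtain ⟨M, hM⟩ : ∃ M : NNReal, ∀ i ∈ Finset.range N, ‖A.coeff i‖ + ‖B.coeff i‖ ≤ M :=
      ⟨(Finset.range N).sup fun i => ‖A.coeff i‖₊ + ‖B.coeff i‖₊, fun i hi => by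
        exact_mod_cast Finset.le_sup (f := fun i => ‖A.coeff i‖₊ + ‖B.coeff i‖₊) hi⟩
    refine ⟨M / (‖A.coeff N‖ - ‖B.coeff N‖) + 1, fun t ht z hz => ?_⟩
    have k := (NNReal.coe_lt_coe.2 (hz.norm_lt_cauchyBound (ne t ht))).le
    rw [cauchyBound, deg t ht, lc t ht] at k
    have s : ((Finset.range N).sup fun i => ‖(A + C (t : ℂ) * B).coeff i‖₊) ≤ M :=
      Finset.sup_le fun i hi => NNReal.coe_le_coe.1 (by
        rw [co, coe_nnnorm]
        linarith [norm_add_le (A.coeff i) ((t : ℂ) * B.coeff i), small t ht (B.coeff i), hM i hi])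
    push_cast at k
    refine k.trans (add_le_add_left ?_ 1)
    exact div_le_div₀ M.2 (NNReal.coe_le_coe.2 s) (by linarith) (low t ht _ _)
  let K : Set (ℝ × (Fin N → ℂ)) := {p | p.1 ∈ Set.Icc (0 : ℝ) 1 ∧ ∀ z,
    A.eval z + (p.1 : ℂ) * B.eval z = (A.coeff N + (p.1 : ℂ) * B.coeff N) * ∏ i, (z - p.2 i)}
  have ev : ∀ (t : ℝ) (z : ℂ), (A + C (t : ℂ) * B).eval z = A.eval z + (t : ℂ) * B.eval z :=
    fun t z => by rw [eval_add, eval_mul, eval_C]
  have root : ∀ p ∈ K, ∀ i, (A + C (p.1 : ℂ) * B).IsRoot (p.2 i) := fun p hp i => by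
    rw [IsRoot.def, ev, hp.2, Finset.prod_eq_zero (Finset.mem_univ i) (sub_self _), mul_zero]
  have hK : IsCompact K := by
    refine (isCompact_Icc.prod (isCompact_closedBall (0 : Fin N → ℂ) (max R 0))).of_isClosed_subset
      ?_ fun p hp => ⟨hp.1, mem_closedBall_zero_iff.2 ((pi_norm_le_iff_of_nonneg
        (le_max_right _ _)).2 fun i => (hR _ hp.1 _ (root p hp i)).trans (le_max_left _ _))⟩
    refine IsClosed.and (isClosed_Icc.preimage continuous_fst) ?_
    rw [Set.ofPred_forall]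
    exact isClosed_iInter fun z => isClosed_eq (by fun_prop) (by fun_prop)
  have : CompactSpace K := isCompact_iff_compactSpace.1 hK
  have cont : Continuous fun p : K => ∑ i, V.indicator (fun _ => (1 : ℕ)) (p.1.2 i) := by
    refine continuous_finsetSum _ fun i _ => ?_
    have c : Continuous fun p : K => p.1.2 i := by fun_prop
    have o : IsClopen ((fun p : K => p.1.2 i) ⁻¹' V) := isClopen_iff_frontier_eq_empty.2
      (Set.eq_empty_of_forall_notMem fun p hp => by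
        have r := root _ p.2 i
        rw [IsRoot.def, ev] at r
        have k := low _ p.2.1 (A.eval (p.1.2 i)) (B.eval (p.1.2 i))
        rw [r, norm_zero] at k
        linarith [h _ (c.frontier_preimage_subset V hp)])
    exact o.continuous_indicator (f := fun _ => (1 : ℕ)) continuous_const
  have val : ∀ p : K, cnt V (A + C (p.1.1 : ℂ) * B) =
      ∑ i, V.indicator (fun _ => (1 : ℕ)) (p.1.2 i) := fun p =>
    ShRouche_cnt V (ShRouche_roots (lc0 _ p.2.1) fun z => by rw [ev, p.2.2])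
  have cl : ∀ s : Set ℕ, IsClosed {t | t ∈ Set.Icc (0 : ℝ) 1 ∧ cnt V (A + C (t : ℂ) * B) ∈ s} := by
    intro s
    have k := ((isClosed_discrete s).preimage cont).isCompact.image
      (f := fun p : K => p.1.1) (by fun_prop)
    refine Eq.mp (congrArg IsClosed (Set.ext fun t => ⟨?_, fun ht => ?_⟩)) k.isClosed
    · rintro ⟨p, hp, rfl⟩
      exact ⟨p.2.1, val p ▸ hp⟩
    · obtain ⟨r, hr⟩ := ShRouche_exists (deg t ht.1)
      have m : (t, r) ∈ K := ⟨ht.1, fun z => by rw [← ev, hr, lc t ht.1]⟩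
      exact ⟨⟨_, m⟩, by rw [Set.mem_preimage, ← val ⟨_, m⟩]; exact ht.2, rfl⟩
  by_contra n
  obtain ⟨t, -, h1, h2⟩ := isPreconnected_closed_iff.1 (isPreconnected_Icc (a := (0 : ℝ)) (b := 1))
    _ _ (cl {cnt V A}) (cl {cnt V A}ᶜ) (fun t ht => by
      by_cases c : cnt V (A + C (t : ℂ) * B) = cnt V A
      · exact Or.inl ⟨ht, c⟩
      · exact Or.inr ⟨ht, c⟩)
    ⟨0, by simp, by simp, by simp⟩ ⟨1, by simp, by simp, by simpa using n⟩
  exact h2.2 h1.2

end Pool.Agent.Lib.MP_424c76_an
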