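import Pool.Agent.Lib.MP_424c76_an.ShAP
import Pool.Agent.Lib.MP_424c76_an.ShCent

set_option autoImplicit false

open Polynomial

namespace Pool.Agent.Lib.MP_424c76_an

theorem shTop_fin {P : ℂ[X]} (hP : P ≠ 0) (N : ℕ) :
    {z | ∃ n m : ℕ, n < N ∧ m ≤ n * P.natDegree ∧ (Q P n m).IsRoot z}.Finite := by
  refine Set.Finite.subset ((Set.finite_lt_nat N).biUnion fun n _ =>
    (Set.finite_le_nat (n * P.natDegree)).biUnion fun m hm =>
      Polynomial.finite_setOfPred_isRoot (Q_ne hP (n := n) (m := m) hm)) ?_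
  rintro z ⟨n, m, h1, h2, h3⟩
  exact Set.mem_biUnion h1 (Set.mem_biUnion h2 h3)

theorem shTop_root {P : ℂ[X]} {n : ℕ} (hn : 2 ≤ n) {z : ℂ}
    (h : P.IsRoot z ∨ (derivative P).IsRoot z) : (Q P n 1).IsRoot z := by
  have e : Q P n 1 = C (n : ℂ) * P ^ (n - 1) * derivative P := by
    simp [Q, derivative_pow]
  rw [e, IsRoot.def, eval_mul, eval_mul, eval_pow]
  rcases h with h | h
  · rw [h.eq_zero, zero_pow (by omega), mul_zero, zero_mul]
  · rw [h.eq_zero, mul_zero]

/-- A closed and open part of the shadow contains all roots or is finite without critical point. -/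
theorem part {P : ℂ[X]} (hP : 1 ≤ P.natDegree) (K₁ K₂ : Set ℂ) (h₁ : IsClosed K₁)
    (h₂ : IsClosed K₂) (hd : Disjoint K₁ K₂) (hu : K₁ ∪ K₂ = shadow P) :
    (∀ z, P.IsRoot z → z ∈ K₁) ∨
      (K₁.Finite ∧ ∀ z ∈ K₁, ¬ P.IsRoot z ∧ ¬ (derivative P).IsRoot z) := by
  have hP0 : P ≠ 0 := by
    rintro rfl
    simp at hP
  have hK := compact_shadow hP
  have c₁ : IsCompact K₁ := hK.of_isClosed_subset h₁ (hu ▸ Set.subset_union_left)
  obtain ⟨δ, hδ, hdis⟩ := hd.exists_cthickenings c₁ h₂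
  obtain ⟨R, hR⟩ := (c₁.isBounded.cthickening (δ := δ)).exists_norm_le
  have hZ : ∀ w ∈ zeroSet P, w ∈ K₁ ∨ w ∈ K₂ := fun w hw => by
    have : w ∈ K₁ ∪ K₂ := hu ▸ subset_closure hw
    exact this
  have hV2 : ∀ z ∈ Metric.thickening δ K₁, z ∉ Metric.cthickening δ K₂ := fun z hz h =>
    Set.disjoint_left.1 hdis (Metric.thickening_subset_cthickening _ _ hz) h
  have hfr : ∀ z ∈ frontier (Metric.thickening δ K₁),
      ‖z‖ ≤ R ∧ ∀ w ∈ zeroSet P, δ ≤ ‖z - w‖ := by
    intro z hz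
    have z1 : z ∈ Metric.cthickening δ K₁ :=
      Metric.closure_thickening_subset_cthickening _ _ (frontier_subset_closure hz)
    have z2 : z ∉ Metric.thickening δ K₁ := fun h =>
      hz.2 (by rwa [Metric.isOpen_thickening.interior_eq])
    refine ⟨hR z z1, fun w hw => not_lt.1 fun h => ?_⟩
    rw [← dist_eq_norm] at h
    rcases hZ w hw with a | a
    · exact z2 (Metric.mem_thickening_iff.2 ⟨w, a, h⟩)
    · exact Set.disjoint_left.1 hdis z1 (Metric.mem_cthickening_of_dist_le z w δ K₂ a h.le)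
  have hin : ∀ w ∈ zeroSet P, w ∈ Metric.thickening δ K₁ → w ∈ K₁ := fun w hw h =>
    (hZ w hw).resolve_right fun a => hV2 w h (Metric.self_subset_cthickening _ a)
  rcases dichotomy hP _ Metric.isOpen_thickening δ R hδ hfr with h | ⟨K, h⟩
  · exact Or.inl fun z hz => hin z ⟨1, 0, le_rfl, Nat.zero_le _, by simpa [Q] using hz⟩ (h z hz)
  right
  obtain ⟨g, hg, hc⟩ := centroid hP
  have hgV : g ∉ Metric.thickening δ K₁ := by
    intro hgV
    obtain ⟨η, hη, hb⟩ := Metric.isOpen_iff.1 Metric.isOpen_thickening g hgV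
    obtain ⟨N, hN⟩ := hc (K + 1) η hη
    have a1 : K + 1 ≤ (N + K + 1) * P.natDegree := by nlinarith
    have a2 : (Q P (N + K + 1) ((N + K + 1) * P.natDegree - (K + 1))).degree ≠ 0 := by
      refine (natDegree_pos_iff_degree_pos.1 ?_).ne'
      rw [Q_deg]
      omega
    obtain ⟨z, hz⟩ := IsAlgClosed.exists_root _ a2
    refine h (N + K + 1) _ (by omega) (by omega) z (hb ?_) hz
    rw [Metric.mem_ball, dist_eq_norm]
    exact hN _ _ (by omega) (by omega) (by omega) z hz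
  have hg2 : g ∈ K₂ := (hZ g hg).resolve_left fun a => hgV (Metric.self_subset_thickening hδ _ a)
  obtain ⟨N, hN⟩ := hc K δ hδ
  have hfin : (Metric.thickening δ K₁ ∩ zeroSet P).Finite := by
    refine (shTop_fin hP0 N).subset ?_
    rintro z ⟨hz, n, m, h1, h2, h3⟩
    refine ⟨n, m, not_le.1 fun hn => ?_, h2, h3⟩
    rcases le_total (m + K) (n * P.natDegree) with a | a
    · exact h n m h1 a z hz h3
    · have := hN n m hn h2 a z h3
      rw [← dist_eq_norm] at this
      exact hV2 z hz (Metric.mem_cthickening_of_dist_le z g δ K₂ hg2 this.le)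
  refine ⟨hfin.subset fun z hz => ?_, fun z hz => ?_⟩
  · have a1 : z ∈ closure (zeroSet P) := by
      have : z ∈ K₁ ∪ K₂ := Or.inl hz
      rwa [hu] at this
    have a2 := Metric.isOpen_thickening.inter_closure
      ⟨Metric.self_subset_thickening hδ _ hz, a1⟩
    rwa [hfin.isClosed.closure_eq] at a2
  · rw [← not_or]
    intro a
    exact h (K + 2) 1 (by omega) (by nlinarith) z (Metric.self_subset_thickening hδ _ hz)
      (shTop_root (by omega) a)

theorem main {P : ℂ[X]} (hP : 1 ≤ P.natDegree) :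
    ∃ M ⊆ shadow P, IsConnected M ∧ (∀ r, P.IsRoot r ∨ (derivative P).IsRoot r → r ∈ M) ∧
      ∀ z ∈ shadow P, z ∉ M → ¬ AccPt z (Filter.principal (shadow P)) := by
  obtain ⟨r₀, hr₀⟩ := IsAlgClosed.exists_root P (natDegree_pos_iff_degree_pos.1 hP).ne'
  have hr : r₀ ∈ shadow P := subset_closure ⟨1, 0, le_rfl, Nat.zero_le _, by simpa [Q] using hr₀⟩
  have hK := compact_shadow hP
  have key : ∀ z ∈ shadow P, z ∉ connectedComponentIn (shadow P) r₀ →
      ∃ K₁ K₂ : Set ℂ, IsClosed K₂ ∧ Disjoint K₁ K₂ ∧ K₁ ∪ K₂ = shadow P ∧ z ∈ K₁ ∧ K₁.Finite ∧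
        ∀ z ∈ K₁, ¬ P.IsRoot z ∧ ¬ (derivative P).IsRoot z := by
    intro z hz hn
    have : CompactSpace (shadow P) := isCompact_iff_compactSpace.1 hK
    rw [connectedComponentIn_eq_image hr, connectedComponent_eq_iInter_isClopen] at hn
    have h1 : ∃ s : Set (shadow P), IsClopen s ∧ (⟨r₀, hr⟩ : shadow P) ∈ s ∧
        (⟨z, hz⟩ : shadow P) ∉ s := by
      by_contra hc
      push Not at hc
      exact hn ⟨⟨z, hz⟩, Set.mem_iInter.2 fun s => hc s.1 s.2.1 s.2.2, rfl⟩
    obtain ⟨s, hs, a1, a2⟩ := h1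
    have emb := hK.isClosed.isClosedEmbedding_subtypeVal
    have c1 := emb.isClosedMap _ hs.compl.isClosed
    have c2 := emb.isClosedMap _ hs.isClosed
    have hd : Disjoint (Subtype.val '' sᶜ) (Subtype.val '' s) :=
      (Set.disjoint_image_iff Subtype.val_injective).2 disjoint_compl_left
    have hu : Subtype.val '' sᶜ ∪ Subtype.val '' s = shadow P := by
      rw [← Set.image_union, Set.compl_union_self, Set.image_univ, Subtype.range_coe]
    rcases part hP _ _ c1 c2 hd hu with h | h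
    · exact absurd ⟨_, a1, rfl⟩ (Set.disjoint_left.1 hd (h r₀ hr₀))
    · exact ⟨_, _, c2, hd, hu, ⟨_, a2, rfl⟩, h⟩
  refine ⟨connectedComponentIn (shadow P) r₀, connectedComponentIn_subset _ _,
    isConnected_connectedComponentIn_iff.2 hr, fun r h => ?_, fun z hz hn hacc => ?_⟩
  · by_contra hn
    have hs : r ∈ shadow P := subset_closure ⟨2, 1, by omega, by omega, shTop_root le_rfl h⟩
    obtain ⟨K₁, K₂, -, -, -, a, -, b⟩ := key r hs hn
    exact h.elim (b r a).1 (b r a).2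
  · obtain ⟨K₁, K₂, c, hd, hu, a, hf, -⟩ := key z hz hn
    have o1 : (K₂ ∪ (K₁ \ {z}))ᶜ ∈ nhds z := by
      refine (c.union hf.sdiff.isClosed).isOpen_compl.mem_nhds ?_
      rintro (h | h)
      · exact Set.disjoint_left.1 hd a h
      · exact h.2 rfl
    obtain ⟨y, ⟨y1, y2⟩, y3⟩ := accPt_iff_nhds.1 hacc _ o1
    rw [← hu] at y2
    rcases y2 with h | h
    · exact y1 (Or.inr ⟨h, y3⟩)
    · exact y1 (Or.inl h)

end Pool.Agent.Lib.MP_424c76_an
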